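import Pool.Agent.H221.TW.All
import Pool.Agent.H786.TW.Ch3
import Pool.Agent.H221.TW.Planar

/-!
# MP_eba1ef_gt: twelve translates suffice in `ℝ³`

Every convex body `K` in `ℝ³` is covered by at most twelve translates of its interior: `c_3 ≤ 12`.
The published bounds are 16 (Papadoperakis 1999) and 14 (Prymak 2023), the library has 13.

## Proof

*Position.* Let `0` be the Minkowski centre of `K` and `λ` the measure of asymmetry, `-K ⊆ λ K`,
`1 ≤ λ ≤ 3`, with four touching normals `n i`, `max n i = 1`, `min n i = -λ` on `K`, and `0` in their
convex hull.

* If `λ > 2`, let `t i = a i (1 - n i)` be the barycentric coordinates of the simplex around `K`, let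
  `F` be the far face `n i = -λ` with the smallest defect `1 - (1 + λ) a i`, and `p` a centre of
  the planar set `F` of ratio two. Then `F - p` lies in the interior of `K`: along the axis
  `[p, -p/λ]` the top face `F` does not reach the boundary of the shadow.
* If `λ ≤ 2`, either the far face `F` of one touching normal does not reach the boundary of the
  shadow along the axis through its centre `p`, or there is a linear `g` with `g p = 0` and
  `max_K g = g x = 1`, `x ∈ F`. Take the largest `R` such that the homothetic image of `F` from `x` with
  factor `R` lies in `G = -λ` (near face); a point `a` of `F` goes to a boundary point of `G` with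
  a supporting functional `m`. The axis through `a` and the corresponding point of the near face
  has all the top points in `m ≤ 0` and all the bottom points in `m ≥ 0`, and its shadow `P`
  satisfies `-P ⊆ c P` with `c = R + λ - 1 ≤ (5 λ - 1) / 3 ≤ 3`; a small shift of the axis makes all fibres
  over the boundary of `P` different from the whole segment from bottom to top (now `c ≤ 3.1`).

*Arcs.* After an affine map the axis is `[(0, -1), (0, 1)]` and `|z| ≤ 1` on `K`. An arc of the
boundary of the shadow `P` is good if one direction lights all points of `K` over it. Ten good
arcs and the two vertical directions light `K`. If the greedy choice of ten good arcs from some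
starting point fails, there is a closed chain of ten touching bad arcs. Over a bad arc there are
finitely many nonzero normals of `K` with sum `0` (separation). Averaging these normals over the
products of two or three arcs which do not touch gives
* (pairs) for bad arcs `[a, b]`, `[c, d]` in a half-turn
  `det (a, d) < max (det (a, b), det (c, d))`,
* (triples) for bad arcs `[a₁, b₁]`, `[a₂, b₂]`, `[a₃, b₃]`, consecutive ones in a half-turn, one of
  `det (a₁, b₂) < det (a₁, b₁)`, `det (a₂, b₃) < det (a₃, b₃)`, `det (b₂ - b₃, a₂ - a₁) ≤ 0`,
  `det (b₁, a₂) det (b₂, a₃) ≤ det (a₁, b₁) det (a₃, b₃)`;
here one uses that among two such arcs in a half-turn one has no top point or no bottom point.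

*The planar lemma.* There are no ten points around `0` in the boundary of `P` with these
properties if `-P ⊆ 3.1 P`. Up to rotation and reflection there are 34 patterns of the signs of the
determinants `D i j` of the ten points. In each pattern a tree of case distinctions leads to leaves
in which a product of inequalities between monomials in the `|D i j|` (Plücker relations, arithmetic
and geometric mean, convexity, `-P ⊆ 3.1 P`, the inequalities above) is contradictory. The trees were
found by linear programming (helper146 after helper54 and helper786) and are checked by the
kernel with a reflective checker which is proved sound (helper292). The division points are moved a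
little so that no two of them are antipodal; this costs the factors 1.01 in `ChainG`.
-/

set_option autoImplicit false

namespace Pool.Agent.Results.MP_eba1ef_gt.TwelveInSpace

/-- **Main theorem.** Every convex body in `ℝ³` is covered by at most twelve translates of its
interior. -/
theorem result (K : Set (EuclideanSpace ℝ (Fin 3))) (hK : Convex ℝ K) (hKc : IsCompact K)
    (hKi : (interior K).Nonempty) :
    ∃ T : Finset (EuclideanSpace ℝ (Fin 3)), T.card ≤ 12 ∧
      K ⊆ ⋃ t ∈ T, (fun x => t + x) '' interior K :=
  Pool.Agent.H221.TW.final Pool.Agent.H786.TW.ch3 Pool.Agent.H221.TW.planarG K hK hKc hKi

end Pool.Agent.Results.MP_eba1ef_gt.TwelveInSpace
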