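import Pool.Agent.H283.HT.All
import Pool.Agent.H283.HT.Sym
import Pool.Agent.H283.NS.Near

/-!
# MP_eba1ef_gt: convex bodies in `ℝ³` with an affine symmetry, and a neighbourhood of them

A convex body in `ℝ³` which has an affine symmetry different from the identity, from the
reflections in planes and from the reflections in points is covered by eight translates of its
interior. More generally, there is `ε > 0` such that this holds for all convex bodies `K` in `ℝ³`
(without any symmetry) which are `ε`-close to a body `K'` of this kind: `K' ⊆ K ⊆ x + (1 + δ) K'` for a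
number `0 ≤ δ ≤ ε` and a vector `x`. So this is a statement about a whole neighbourhood, in the affine
Banach-Mazur distance, of the set of all bodies of this kind. With `δ = 0`, `x = 0`, `K' = K` it is the
statement about the bodies with a symmetry.

Proof for the bodies with a symmetry. If the fourth power of the symmetry is not the identity, or if
the symmetry preserves the orientation and its square is not the identity, this is a theorem of the
library (`RotationOrderThree`). The new case is that of a half-turn.

Normal form: the half-turn is `(p, z) ↦ (-p, z)`, `p ∈ ℝ²`, and the axis meets `K` in the segment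
from `(0, -1)` to `(0, 1)`; then `|z| ≤ 1` on `K`. Let `P` be the shadow of `K` in the plane, with
the boundary points `q θ` in cyclic order.

* If `z > -1` at all points of `K` over the boundary of `P` (or `z < 1` at all these points), then a
  half of the boundary of `P` is the union of three arcs such that one direction lights all points
  of `K` over an arc; their images under the half-turn light the other half, and the two vertical
  directions light the points over the interior of `P`. The key inequality: for arcs `[a, b]`,
  `[c, d]` of a half of the boundary and normals `(s, 1)` over `[a, b]`, `(s', 1)` over `[c, d]`: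
  `s · (q a + q b) / det (q a, q b) + s' · (q c + q d) / det (q c, q d) ≥ 0`.
  It implies that two disjoint arcs of a half of the boundary cannot both need more than one
  direction.
* Otherwise both extreme faces of `K` reach the boundary of the shadow, at `p₀` and `p₁`, and eight
  directions are found directly.

The neighbourhood follows by compactness of the space of affine classes of convex bodies: a limit of
bodies `K'` with symmetries `g` has a symmetry of the same kind, because some power of `g` is not close
to the identity, and the covering number is upper semicontinuous.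
-/

set_option autoImplicit false

namespace Pool.Agent.Results.MP_eba1ef_gt.AffineSymmetryInSpace

/-- three-dimensional Euclidean space -/
abbrev E3 : Type := EuclideanSpace ℝ (Fin 3)

/-- the affine self-map `x ↦ M x + b` of `ℝ³` -/
noncomputable def aff (M : Matrix (Fin 3) (Fin 3) ℝ) (b x : E3) : E3 :=
  WithLp.toLp 2 (M.mulVec (WithLp.ofLp x)) + b

/-- the map `aff M b` as an affine map -/
noncomputable def affMap (M : Matrix (Fin 3) (Fin 3) ℝ) (b : E3) : E3 →ᵃ[ℝ] E3 :=
  { toFun := aff M b
    linear := Matrix.toEuclideanLin M
    map_vadd' := fun p v => by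
      simp only [aff, vadd_eq_add, Matrix.toLpLin_apply]
      rw [WithLp.ofLp_add, Matrix.mulVec_add, WithLp.toLp_add]
      abel }

theorem det_affMap (M : Matrix (Fin 3) (Fin 3) ℝ) (b : E3) :
    LinearMap.det (affMap M b).linear = M.det := by
  change LinearMap.det (Matrix.toLin (PiLp.basisFun 2 ℝ (Fin 3)) (PiLp.basisFun 2 ℝ (Fin 3)) M) =
    M.det
  rw [LinearMap.det_toLin]

theorem exists_ne {f g : E3 → E3} (h : f ≠ g) : ∃ v, f v ≠ g v := by
  by_contra hcon
  push Not at hcon
  exact h (funext hcon)

/-- **There is `ε > 0` such that, for all `0 ≤ δ ≤ ε`: every convex body `K` in `ℝ³` with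
`K' ⊆ K ⊆ x + (1 + δ) K'`, where `x` is a vector and `K'` is a convex body with an affine symmetry
`g : x ↦ M x + b`, `g(K') = K'`, which preserves the orientation and is not the identity, or for which
`g ∘ g` is not the identity, is covered by at most eight translates of its interior.** With `δ = 0`,
`x = 0`, `K' = K` this is the statement about all convex bodies `K` with such a symmetry. -/
theorem result :
    ∃ ε : ℝ, 0 < ε ∧ ∀ δ : ℝ, 0 ≤ δ → δ ≤ ε → ∀ K K' : Set E3,
      Convex ℝ K → IsCompact K → (interior K).Nonempty →
      Convex ℝ K' → IsCompact K' → (interior K').Nonempty →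
      ∀ (M : Matrix (Fin 3) (Fin 3) ℝ) (b : E3), aff M b '' K' = K' →
      ((0 < M.det ∧ aff M b ≠ id) ∨ aff M b ∘ aff M b ≠ id) →
      ∀ x : E3, K' ⊆ K → K ⊆ (fun v => x + (1 + δ) • v) '' K' →
      ∃ T : Finset E3, T.card ≤ 2 ^ 3 ∧ K ⊆ ⋃ t ∈ T, (fun x => t + x) '' interior K := by
  obtain ⟨ε, hε, hnear⟩ := Pool.Agent.H283.NS.near (d := 3) (N := 8)
    fun L0 h1 h2 h3 g h4 h5 h6 =>
      Pool.Agent.H283.HT.cov_sym Pool.Agent.H283.HT.tra h1 h2 h3 g h4 (Or.inl ⟨h5, h6⟩)
  refine ⟨ε, hε, ?_⟩
  intro δ hδ hδε K K' hK hc hint hK' hc' hint' M b hg h x hsub hsup₀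
  suffices hcov : Pool.Agent.H768.C4.Cov 8 K by
    obtain ⟨T, hT, hT'⟩ := hcov
    exact ⟨T, hT.trans (by norm_num), hT'⟩
  obtain ⟨p, hp⟩ := hint'
  have hpK : p ∈ K' := interior_subset hp
  have hsup : K ⊆ (fun v => (x - (ε - δ) • p) + (1 + ε) • v) '' K' := by
    intro v hv
    obtain ⟨w, hw, hwv⟩ := hsup₀ hv
    have h1 : (0 : ℝ) < 1 + ε := by linarith
    refine ⟨((1 + δ) / (1 + ε)) • w + ((ε - δ) / (1 + ε)) • p, ?_, ?_⟩
    · refine hK' hw hpK (by positivity) (div_nonneg (by linarith) h1.le) ?_
      field_simp
      ring
    · have h2 : x + (1 + δ) • w = v := hwv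
      change (x - (ε - δ) • p) + (1 + ε) • (((1 + δ) / (1 + ε)) • w + ((ε - δ) / (1 + ε)) • p) = v
      rw [smul_add, smul_smul, smul_smul, mul_div_cancel₀ _ h1.ne', mul_div_cancel₀ _ h1.ne', ← h2]
      abel
  by_cases h2 : aff M b ∘ aff M b = id
  · rcases h with ⟨h3, h4⟩ | h3
    · exact hnear K K' hK hc hint hK' hc' _ hsub hsup (affMap M b) hg
        (by rw [det_affMap]; exact h3) (exists_ne h4)
    · exact absurd h2 h3
  · refine hnear K K' hK hc hint hK' hc' _ hsub hsup ((affMap M b).comp (affMap M b)) ?_ ?_ ?_
    · have : ((affMap M b).comp (affMap M b) : E3 → E3) = aff M b ∘ aff M b := rfl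
      rw [this, Set.image_comp, hg, hg]
    · have h5 := Pool.Agent.W867.Cov3.det_ne_zero ⟨p, hp⟩ (affMap M b) hg
      have : ((affMap M b).comp (affMap M b)).linear = (affMap M b).linear * (affMap M b).linear :=
        rfl
      rw [this, map_mul]
      exact mul_self_pos.2 h5
    · exact exists_ne h2

end Pool.Agent.Results.MP_eba1ef_gt.AffineSymmetryInSpace
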