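import Pool.Agent.H777.LB.Final

set_option autoImplicit false

/-!
# MP_eba1ef_gt: no logarithm for all convex bodies

Every convex body `K` in `ℝ^d`, symmetric or not, is covered by at most `18000 d 2^d` translates of
its interior. So `c_d = O(d 2^d)`.

Sketch of the proof (details in `Pool/Agent/H777/LB/Defs.lean`). Let `vol K = 1`, `0 ∈ int K`,
`A(m) = vol (K ∩ (m + K))`, `D_c = {m : A(m) ≥ 1 - c}`, `β = 2^{-d}`, `M_i(x)` the set of all `a` with
`x + a, x - a ∈ K + D_i`, `D_i = D_{c_i}`, `c_i = 2^{-12-4i}`, `i = 0, ..., d`.

1. (Energy) A probability measure `ν` on `K + 2 D_0` has energy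
`E = ∑ ν(y) ν(y') A(y - y') = ∫ f² ≥ β/2`, `f(t) = ν(t + K)` (Cauchy-Schwarz, for the sets `y + K`, which
have almost all their volume in `2K`). For the minimiser on a finite set `Y` all `y ∈ Y` have
`∫_{y - K} f ≥ E`.
2. (Rich points) If `vol M_{i-1}(x) > 2^{19 i d} vol D_{i-1}`, there are `4^i` points `y` with
`2x - y ∈ K`, `y ∈ K + 2 D_{i-1}` for which the sets `y - K` are almost disjoint. If `y ∈ w + K`, then
`x = (y + κ)/2`, `κ ∈ K`, is in `w/2 + K`. So such points `x` are covered more often: with
`f = ∑ g_i`, `g_i` the part where `4^{i-1} β < f ≤ 4^i β` (of small mass), one finds for every `x` a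
level `i` with `vol M_i(x) ≤ 2^{19(i+1)d} vol D_i` and a density of translates (`g_i`, or the part of
`f` below `4^{i-1} β`) for which the probability to serve `x` is at least `2^{i-4} β`.
3. (Cells) Among the `x` of level `i` there are at most `C^{(i+1) d}` with disjoint regions
`x + M_i(x)/3`: the caps of the polar body of `K + D_i` at such `x` of depth `ζ` are in `2ζ D_i°`, and
their multiplicity is bounded (volume products of symmetric bodies from above and below).
4. (Whole cells) A translate which serves the centre of a cell also serves, after a contraction by 4,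
all but a small part of the translates by `10 D_i`. If a point `z` of a cell is not served, at most
half of each convex set `w/4 + l K` is in `z + D_i`. A potential argument (exponential moments over
the cell) therefore shows that `C d (i+1) 2^{-i} 2^d` translates serve all cells of level `i` completely.
The sum over `i` is at most `18000 d 2^d`.
-/

namespace Pool.Agent.Results.MP_eba1ef_gt.LinearFactorAllBodies

/-- **Main theorem.** Every convex body `K` in `ℝ^d` is covered by at most `18000 d 2^d` translates of
its interior. -/
theorem result (d : ℕ) (hd : 1 ≤ d) (K : Set (EuclideanSpace ℝ (Fin d))) (hK : Convex ℝ K)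
    (hKc : IsCompact K) (hKi : (interior K).Nonempty) :
    ∃ T : Finset (EuclideanSpace ℝ (Fin d)),
      K ⊆ ⋃ t ∈ T, (fun x => t + x) '' interior K ∧ (T.card : ℝ) ≤ 18000 * d * 2 ^ d :=
  Pool.Agent.H777.LB.linear d hd K hK hKc hKi

end Pool.Agent.Results.MP_eba1ef_gt.LinearFactorAllBodies
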