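import Mathlib
import Pool.Agent.H266.RP.Final

/-!
# MP_eba1ef_gt: the covering number of random polytopes

`c(K)` is the least number of translates of the interior of `K` that cover the convex body `K`; the
conjecture of Levi and Hadwiger says `c(K) ≤ 2^d`, with equality for parallelotopes only.

Let `x_1, ..., x_N` be independent random points of `ℝ^d`, each with a rotation invariant law (the
laws may be different and may depend on `d`: Gaussian vectors, points on spheres or in balls of
arbitrary random radii, `x_i = U_i y_i` with arbitrary fixed `y_i` and independent random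
rotations `U_i`), and let `K` be their convex hull or the convex hull of the points `± x_i`.

1. `result`, first part.  For each `R > √2` there is `c > 0` such that for all large `d`, *all* `N`
   and all such laws, `c(K) ≤ R^d` with probability at least `1 - exp(-exp(c d))`, if `K` has
   interior points; and for every set `L` the set `K + L` is also covered by at most `R^d` (the
   same) translates of its interior.  As `√2 < 2`, this is the bound of the conjecture, with no
   equality, and with an exponentially smaller number.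

2. `result`, second part: the exact exponential rate for points on the sphere, so that `√2` is best
   possible.  Let `q > 1` and `ψ(q) = min(q, q / √(q² - 1))`; the maximum of `ψ` is
   `ψ(√2) = √2`.  For `N = ⌊q^d⌋` independent uniformly distributed points of the unit sphere and
   any `r < ψ(q) < R`, with probability at least `1 - exp(-exp(c d))`, `r^d < c(K) ≤ R^d` for both
   polytopes, and, if `q ≥ √2`, `(1/R) B ⊆ K ⊆ B` for the unit ball `B`.

   Deterministic corollary (`spiky_ball`; `q ≥ √2`, `D = ψ(q)` is any number of `(1, √2]`): in all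
   large dimensions there are centrally symmetric polytopes `K` with `(1/R) B ⊆ K ⊆ B` and
   `r^d < c(K)`, `r < D < R`.  This is sharp up to subexponential factors: `(1/D) B ⊆ K ⊆ B` implies
   `c(K) ≤ (D + o(1))^d`.  Naszódi (A spiky ball, 2016) has proved this (with `c(K) ≥ 0.05 D^d`) for
   `D < 1.116`.  By the first part `√2` is a barrier for all constructions with independent
   isotropic random points.

Idea of the proof.  First part: let `ρ` be the `m`-th largest norm, `m ≈ (√2 + ε)^d`.  With high
probability the `m` longest points alone span a polytope that contains the ball of radius slightly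
more than `ρ/√2` (a net of directions, and caps of cosine `1/√2`, whose measure is about
`√2^(-d)`; the independence is used through rotations which leave the norms unchanged).  The `m`
longest points are treated one by one, and each of the others by one of `(√2 + ε)^d` directions `u`,
because `x_i + τ u` lies in that ball for some `τ > 0`.  Second part: if the vertex `x_i` is in the
translate `t + int K` and `f` is the component of `x_i` orthogonal to `t` then
`|⟪f, x_j⟫| > |f|²` for some `j ≠ i`.  For a fixed direction of `t` the expected number of such `i`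
is at most about `q^d √θ^d + q^(2d) √(θ - θ²)^d`, `θ = max(1/2, 1 - 1/q²)` (the cases `|f|² ≤ θ` and
`|f|² ≥ θ`), which is `max(1, √(q² - 1))^d`; the events are revealed one after the other (`j < i` and
`j > i` separately), which gives a doubly exponentially small probability that many of them occur,
enough for a net of directions of `t`.  So one translate covers at most about
`max(1, √(q² - 1))^d = (q / ψ(q))^d` of the `q^d` points.
-/

namespace Pool.Agent.Results.MP_eba1ef_gt.RandomPolytopes

open MeasureTheory Set Metric Filter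
open scoped Pointwise RealInnerProductSpace ENNReal Topology

/-- `d`-dimensional Euclidean space -/
abbrev E (d : ℕ) := EuclideanSpace ℝ (Fin d)

/-- The law `μ` on `ℝ^d` is rotation invariant: invariant under all linear isometries. -/
def Isotropic {d : ℕ} (μ : Measure (E d)) : Prop := ∀ U : E d ≃ₗᵢ[ℝ] E d, μ.map U = μ

/-- the convex hull of the points `x i` -/
def hull {d N : ℕ} (x : Fin N → E d) : Set (E d) := convexHull ℝ (range x)

/-- the convex hull of the points `x i` and `- x i` -/
def symHull {d N : ℕ} (x : Fin N → E d) : Set (E d) :=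
  convexHull ℝ (range x ∪ range (fun i => - x i))

/-- `K` is covered by the translates `t + int K`, `t ∈ T`. -/
def CoveredBy {d : ℕ} (T : Finset (E d)) (K : Set (E d)) : Prop :=
  K ⊆ ⋃ t ∈ T, (fun y => t + y) '' interior K

/-- There is a set `T` of at most `s` vectors such that `K` and, more generally, `K + L` for every
set `L`, is covered by the translates by the `t ∈ T` of its interior. -/
def AtMost {d : ℕ} (K : Set (E d)) (s : ℝ) : Prop :=
  ∃ T : Finset (E d), (T.card : ℝ) ≤ s ∧ ∀ L : Set (E d), CoveredBy T (K + L)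

/-- `K` is not covered by any `s` translates of its interior. -/
def MoreThan {d : ℕ} (K : Set (E d)) (s : ℝ) : Prop :=
  ∀ T : Finset (E d), (T.card : ℝ) ≤ s → ¬ CoveredBy T K

/-- the uniform distribution on the closed unit ball -/
noncomputable def ballLaw (d : ℕ) : Measure (E d) :=
  (volume (closedBall (0 : E d) 1))⁻¹ • volume.restrict (closedBall (0 : E d) 1)

/-- the uniform distribution on the unit sphere: the law of `y / ‖y‖` for a uniformly distributed
point `y` of the unit ball -/
noncomputable def sphereLaw (d : ℕ) : Measure (E d) := (ballLaw d).map (fun y => ‖y‖⁻¹ • y)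

/-- `AtMost K s` implies that `K` itself is covered by at most `s` translates of its interior. -/
theorem atMost_self {d : ℕ} {K : Set (E d)} {s : ℝ} (h : AtMost K s) :
    ∃ T : Finset (E d), (T.card : ℝ) ≤ s ∧ CoveredBy T K := by
  obtain ⟨T, h1, h2⟩ := h
  have := h2 {0}
  rw [add_singleton] at this
  simp only [add_zero, image_id'] at this
  exact ⟨T, h1, this⟩

/-- `sphereLaw d` is a rotation invariant probability measure on the unit sphere. -/
theorem sphereLaw_basic {d : ℕ} (hd : 1 ≤ d) :
    IsProbabilityMeasure (sphereLaw d) ∧ Isotropic (sphereLaw d) ∧ ∀ᵐ x ∂(sphereLaw d), ‖x‖ = 1 :=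
  Pool.Agent.H266.RP.p_dir d hd

/-- **Covering numbers of random polytopes.** -/
theorem result :
    (∀ R : ℝ, √2 < R → ∃ c : ℝ, 0 < c ∧ ∃ d₀ : ℕ, ∀ d : ℕ, d₀ ≤ d →
      ∀ (N : ℕ) (μ : Fin N → Measure (E d)) [∀ i, IsProbabilityMeasure (μ i)],
        (∀ i, Isotropic (μ i)) →
        Measure.pi μ {x | ¬ (((interior (hull x)).Nonempty → AtMost (hull x) (R ^ d)) ∧
            ((interior (symHull x)).Nonempty → AtMost (symHull x) (R ^ d)))} ≤
          ENNReal.ofReal (Real.exp (-Real.exp (c * d)))) ∧
    (∀ q r R : ℝ, 1 < q → 0 < r → r < min q (q / √(q ^ 2 - 1)) → min q (q / √(q ^ 2 - 1)) < R →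
      ∃ c : ℝ, 0 < c ∧ ∃ d₀ : ℕ, ∀ d : ℕ, d₀ ≤ d →
        Measure.pi (fun _ : Fin ⌊q ^ d⌋₊ => sphereLaw d)
          {x | ¬ (AtMost (hull x) (R ^ d) ∧ MoreThan (hull x) (r ^ d) ∧
            AtMost (symHull x) (R ^ d) ∧ MoreThan (symHull x) (r ^ d) ∧
            (√2 ≤ q → closedBall 0 (1 / R) ⊆ hull x))} ≤
          ENNReal.ofReal (Real.exp (-Real.exp (c * d)))) := by
  constructor
  · intro R hR
    obtain ⟨c, hc, hev⟩ := Pool.Agent.H266.RP.final_upper R hR
    obtain ⟨d₀, hd₀⟩ := eventually_atTop.1 hev
    refine ⟨c, hc, d₀, fun d hd N μ _ hμ => ?_⟩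
    exact hd₀ d hd N μ hμ
  · intro q r R hq hr hr1 hR
    obtain ⟨c, hc, hev⟩ := Pool.Agent.H266.RP.final_rate q r R hq hr hr1 hR
    obtain ⟨d₀, hd₀⟩ := eventually_atTop.1 hev
    refine ⟨c, hc, d₀, fun d hd => (measure_mono ?_).trans (hd₀ d hd)⟩
    intro x hx hcon
    exact hx ⟨hcon.1, fun T hT => (hcon.2.2.1 T hT).1, hcon.2.1, fun T hT => (hcon.2.2.1 T hT).2,
      hcon.2.2.2⟩

/-- **Spiky balls.**  Let `1 < D ≤ √2` and `r < D < R`.  In all large dimensions there are centrally
symmetric polytopes `K` with `(1/R) B ⊆ K ⊆ B` and `r^d < c(K) ≤ R^d`. -/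
theorem spiky_ball (D r R : ℝ) (hD1 : 1 < D) (hD2 : D ≤ √2) (hr : 0 < r) (hrD : r < D)
    (hDR : D < R) :
    ∃ d₀ : ℕ, ∀ d : ℕ, d₀ ≤ d → ∃ (N : ℕ) (x : Fin N → E d),
      closedBall 0 (1 / R) ⊆ symHull x ∧ symHull x ⊆ closedBall 0 1 ∧
        MoreThan (symHull x) (r ^ d) ∧ AtMost (symHull x) (R ^ d) := by
  have hD0 : 0 < D := by linarith
  have hDD : 0 < D ^ 2 - 1 := by nlinarith
  set s := √(D ^ 2 - 1) with hs
  have hs0 : 0 < s := Real.sqrt_pos.2 hDD
  have hs2 : s ^ 2 = D ^ 2 - 1 := Real.sq_sqrt hDD.le
  have hD22 : D ^ 2 ≤ 2 := by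
    have := pow_le_pow_left₀ hD0.le hD2 2
    rwa [Real.sq_sqrt (by norm_num)] at this
  have hs1 : s ≤ 1 := by
    rw [hs]; exact Real.sqrt_le_one.2 (by linarith)
  have hsD : s < D := lt_of_pow_lt_pow_left₀ 2 hD0.le (by rw [hs2]; linarith)
  set q := D / s with hq
  have hq1 : 1 < q := by rw [hq, one_lt_div hs0]; exact hsD
  have hqD : D ≤ q := by
    rw [hq, le_div_iff₀ hs0]
    nlinarith
  have hq2 : √(q ^ 2 - 1) = 1 / s := by
    have h1 : q ^ 2 - 1 = (1 / s) ^ 2 := by
      rw [hq, div_pow, div_pow, hs2]; field_simp; ring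
    rw [h1, Real.sqrt_sq (by positivity)]
  have hψ : min q (q / √(q ^ 2 - 1)) = D := by
    have h2 : q / √(q ^ 2 - 1) = D := by rw [hq2, hq]; field_simp
    rw [h2, min_eq_right hqD]
  have hsq : √2 ≤ q := by
    rw [hq, le_div_iff₀ hs0]
    apply le_of_sq_le_sq _ hD0.le
    rw [mul_pow, hs2, Real.sq_sqrt (by norm_num)]
    linarith
  obtain ⟨c, hc, d₀, hd₀⟩ := result.2 q r R hq1 hr (by rw [hψ]; exact hrD) (by rw [hψ]; exact hDR)
  refine ⟨max d₀ 1, fun d hd => ⟨⌊q ^ d⌋₊, ?_⟩⟩
  have hd1 : 1 ≤ d := le_trans (le_max_right _ _) hd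
  obtain ⟨hprob, -, hnorm⟩ := sphereLaw_basic hd1
  have hae := Pool.Agent.H266.RP.ae_pi_norm (fun _ : Fin ⌊q ^ d⌋₊ => sphereLaw d) (fun _ => hnorm)
  by_contra hcon
  push Not at hcon
  have hall : ∀ᵐ x ∂(Measure.pi (fun _ : Fin ⌊q ^ d⌋₊ => sphereLaw d)),
      x ∈ {x | ¬ (AtMost (hull x) (R ^ d) ∧ MoreThan (hull x) (r ^ d) ∧
            AtMost (symHull x) (R ^ d) ∧ MoreThan (symHull x) (r ^ d) ∧
            (√2 ≤ q → closedBall 0 (1 / R) ⊆ hull x))} := by
    filter_upwards [hae] with x hx hgood
    obtain ⟨-, -, h3, h4, h5⟩ := hgood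
    refine hcon x ((h5 hsq).trans (convexHull_mono subset_union_left)) ?_ h4 h3
    refine convexHull_min ?_ (convex_closedBall 0 1)
    rintro y (⟨i, rfl⟩ | ⟨i, rfl⟩)
    · rw [mem_closedBall_zero_iff]; exact (hx i).le
    · rw [mem_closedBall_zero_iff, norm_neg]; exact (hx i).le
  have h1 : 1 ≤ Measure.pi (fun _ : Fin ⌊q ^ d⌋₊ => sphereLaw d)
      {x | ¬ (AtMost (hull x) (R ^ d) ∧ MoreThan (hull x) (r ^ d) ∧
            AtMost (symHull x) (R ^ d) ∧ MoreThan (symHull x) (r ^ d) ∧
            (√2 ≤ q → closedBall 0 (1 / R) ⊆ hull x))} := by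
    calc (1 : ℝ≥0∞) = Measure.pi (fun _ : Fin ⌊q ^ d⌋₊ => sphereLaw d) univ := measure_univ.symm
      _ ≤ _ := measure_mono_ae (by filter_upwards [hall] with x hx _ using hx)
  have h2 := h1.trans (hd₀ d (le_trans (le_max_left _ _) hd))
  have h3 : ENNReal.ofReal (Real.exp (-Real.exp (c * d))) < 1 := by
    rw [ENNReal.ofReal_lt_one]
    rw [← Real.exp_zero]
    exact Real.exp_lt_exp.2 (by have := Real.exp_pos (c * d); linarith)
  exact absurd (lt_of_le_of_lt h2 h3) (lt_irrefl _)

end Pool.Agent.Results.MP_eba1ef_gt.RandomPolytopes
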